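import Pool.Agent.Helper68.KPR.St

/-! Project KP, module RSD: the graded algebra R^(d) (helper33). -/

set_option autoImplicit false

namespace Pool.Agent.Helper33.KPR

open Pool.Agent.Helper52.KP Pool.Agent.Helper5.KPA Pool.Agent.Helper68.KPR MvPolynomial

theorem hRSD (hAGR : StAGR) : StRSD := by
  intro C hC r F hF
  have hG : GrA (RD C r) := (hAGR C hC r F hF).2.1
  have hone : (1 : MvPolynomial (Fin C.m) ℂ) ∈ RD C r 0 := by
    rw [hG.zero]
    exact Submodule.subset_span rfl
  have hle : ∀ k, RD C r k ≤ ⨆ k, RD C r k := fun k => le_iSup (RD C r) k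
  have hmul : ∀ x ∈ ⨆ k, RD C r k, ∀ y ∈ ⨆ k, RD C r k, x * y ∈ ⨆ k, RD C r k := by
    intro x hx y hy
    induction hx using Submodule.iSup_induction' with
    | mem i x hx =>
      induction hy using Submodule.iSup_induction' with
      | mem j y hy => exact hle (i + j) (hG.mul i j x y hx hy)
      | zero => rw [mul_zero]; exact Submodule.zero_mem _
      | add y y' _ _ h1 h2 => rw [mul_add]; exact Submodule.add_mem _ h1 h2
    | zero => rw [zero_mul]; exact Submodule.zero_mem _
    | add x x' _ _ h1 h2 => rw [add_mul]; exact Submodule.add_mem _ h1 h2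
  have hsub : ∀ k, ∀ x ∈ RD C r k, x ∈ DA C r := fun k x hx =>
    Algebra.subset_adjoin (Set.mem_iUnion.mpr ⟨k, hx⟩)
  have h1 : ∀ x, x ∈ DA C r ↔ x ∈ ⨆ k, RD C r k := by
    intro x
    constructor
    · intro hx
      unfold DA at hx
      induction hx using Algebra.adjoin_induction with
      | mem x hx =>
        obtain ⟨k, hk⟩ := Set.mem_iUnion.mp hx
        exact hle k hk
      | algebraMap c =>
        rw [Algebra.algebraMap_eq_smul_one]
        exact Submodule.smul_mem _ _ (hle 0 hone)
      | add x y _ _ h1 h2 => exact Submodule.add_mem _ h1 h2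
      | mul x y _ _ h1 h2 => exact hmul x h1 y h2
    · intro hx
      have : (⨆ k, RD C r k) ≤ Subalgebra.toSubmodule (DA C r) := iSup_le fun k x hx => hsub k x hx
      exact this hx
  have hval : Function.Injective (DA C r).val.toLinearMap := Subtype.val_injective
  refine ⟨h1, ?_, ?_, hone, ?_⟩
  · rw [iSupIndep_def]
    intro i
    rw [Submodule.disjoint_def]
    intro x hx hx'
    have h2 : (x : MvPolynomial (Fin C.m) ℂ) ∈ RD C r i := hx
    have h3 : (x : MvPolynomial (Fin C.m) ℂ) ∈ ⨆ j, ⨆ (_ : j ≠ i), RD C r j := by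
      have h4 := Submodule.mem_map_of_mem (f := (DA C r).val.toLinearMap) hx'
      have h5 : Submodule.map (DA C r).val.toLinearMap (⨆ j, ⨆ (_ : j ≠ i), DG C r j) ≤
          ⨆ j, ⨆ (_ : j ≠ i), RD C r j := by
        simp only [Submodule.map_iSup]
        exact iSup_mono fun j => iSup_mono fun _ => Submodule.map_comap_le _ _
      exact h5 h4
    have h5 := Submodule.disjoint_def.mp (iSupIndep_def.mp hG.ind i) _ h2 h3
    exact hval (by rw [map_zero]; exact h5)
  · rw [eq_top_iff]
    intro x _
    have h2 : Submodule.map (DA C r).val.toLinearMap (⨆ k, DG C r k) = ⨆ k, RD C r k := by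
      rw [Submodule.map_iSup]
      congr 1
      funext k
      unfold DG
      rw [Submodule.map_comap_eq]
      refine inf_eq_right.mpr ?_
      intro y hy
      exact ⟨⟨y, hsub k y hy⟩, rfl⟩
    have h3 : (x : MvPolynomial (Fin C.m) ℂ) ∈
        Submodule.map (DA C r).val.toLinearMap (⨆ k, DG C r k) := by
      rw [h2]
      exact (h1 x).mp x.2
    obtain ⟨y, hy, hyx⟩ := h3
    rw [← hval hyx]
    exact hy
  · intro i j x y hx hy
    exact hG.mul i j _ _ hx hy

end Pool.Agent.Helper33.KPR
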